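import Pool.Agent.H.MP_8fff0f_ag.A

set_option autoImplicit false
open MvPolynomial

namespace Pool.Agent.Results.MP_0eda79_ag.Tripod

/-- Index set of the coordinates `q_g` for the tree with three leaves and one inner vertex. -/
abbrev Flow (G : Type) [AddCommGroup G] := {g : Fin 3 → G // ∑ i, g i = 0}

/-- The vanishing ideal of the image of the monomial map `q_g = a^0_(g 0) a^1_(g 1) a^2_(g 2)`. -/
noncomputable def modelIdeal (G : Type) [AddCommGroup G] : Ideal (MvPolynomial (Flow G) ℂ) :=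
  vanishingIdeal ℂ (Set.range fun (a : Fin 3 × G → ℂ) (g : Flow G) => ∏ i, a (i, g.1 i))

/-- The ideal generated by the homogeneous elements of degree exactly `d`. -/
noncomputable def degPart {σ : Type} (I : Ideal (MvPolynomial σ ℂ)) (d : ℕ) : Ideal (MvPolynomial σ ℂ) :=
  Ideal.span {q | q ∈ I ∧ q.IsHomogeneous d}

/-- The saturation with respect to the irrelevant ideal, as a set. -/
def sat {σ : Type} (J : Ideal (MvPolynomial σ ℂ)) : Set (MvPolynomial σ ℂ) :=
  {f | ∃ k : ℕ, ∀ h ∈ Ideal.span (Set.range (X : σ → MvPolynomial σ ℂ)) ^ k, h * f ∈ J}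

open Pool.Agent.H.MP_8fff0f_ag in
theorem result :
    ∃ (G : Type) (_ : AddCommGroup G) (_ : Fintype G),
      ∃ f ∈ modelIdeal G, f ∉ sat (degPart (modelIdeal G) (Fintype.card G)) := by
  refine ⟨G 11, inferInstance, inferInstance, ?_⟩
  have mk : ∀ x y z : G 11, x + y + z = 0 → ∃ g : Flow (G 11), g.1 0 = x ∧ g.1 1 = y ∧ g.1 2 = z :=
    fun x y z h => ⟨⟨![x, y, z], by simpa [Fin.sum_univ_three] using h⟩, rfl, rfl, rfl⟩
  have e : ∀ q, q ∈ modelIdeal (G 11) ↔
      ph' (F := Flow (G 11)) (fun g => g.1 0) (fun g => g.1 1) (fun g => g.1 2) q = 0 := fun q => by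
    simp only [modelIdeal, mem_vanishingIdeal_iff, Set.forall_mem_range, MvPolynomial.funext_iff,
      ← coe_aeval_eq_eval, ← AlgHom.comp_apply, comp_aeval, map_zero, map_mul, aeval_X, Fin.prod_univ_three,
      RingHom.coe_coe]
  obtain ⟨f, f1, f2⟩ := bin (K := 11) (F := Flow (G 11)) (fun g => g.1 0)
    (fun g => g.1 1) (fun g => g.1 2) (by norm_num) mk
  refine ⟨f, (e f).mpr f1, fun ⟨k, hk⟩ => f2 ?_⟩
  obtain ⟨g, g0, g1, g2⟩ := mk _ _ _ (sE 11 0 0 0)
  have := (Ideal.span_le (I := RingHom.ker (ev (F := Flow (G 11)) (fun g => g.1 0) (fun g => g.1 1)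
    fun g => g.1 2))).mpr (fun q hq => vanish _ _ _ (fun g => by simpa [Fin.sum_univ_three] using g.2) q
      ((e q).mp hq.1) (hq.2.totalDegree_le.trans_lt (by simp)))
    (hk (X g ^ k) (Ideal.pow_mem_pow (Ideal.subset_span (Set.mem_range_self _)) k))
  rw [RingHom.mem_ker, map_mul, map_pow, aeval_X] at this
  beta_reduce at this
  rwa [g0, g1, g2,
    PE (by norm_num) (by norm_num) (.inl rfl) (.inl rfl), if_neg (by simp), one_pow, one_mul] at this

end Pool.Agent.Results.MP_0eda79_ag.Tripod
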